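import Mathlib
import Pool.Agent.R443.PS

/-!
# Q1 fails at the Wolstenholme prime `16843`

For the prime `p = 16843` and `m = n = 1` the integer `d_m(p^2 n) - d_m(n)` is divisible by `p^4`,
while Q1 predicts that its `p`-adic valuation is `3`.
-/

set_option autoImplicit false

namespace Pool.Agent.Results.MP_26251e_nt.WolstenholmePrime

open PowerSeries Finset

/-- `d p m n` is the coefficient of `x^n` in
`(1 - x)^(-m) * ∏_{j ≥ 0} (1 - x^(p^j))^(-(p-1)m)`.  For `p ≥ 2` the factors with `j > n` do not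
influence this coefficient, because `p^j > n` for them; so the product over `0 ≤ j ≤ n` is taken.
Here `invOfUnit (1 - X ^ a) 1` is the inverse power series of `1 - X ^ a` (for `a ≥ 1`). -/
noncomputable def d (p m n : ℕ) : ℤ :=
  coeff n ((invOfUnit (1 - X : ℤ⟦X⟧) 1) ^ m *
    ∏ j ∈ range (n + 1), (invOfUnit (1 - X ^ (p ^ j) : ℤ⟦X⟧) 1) ^ ((p - 1) * m))

/-! ### The rising factorials `∏_{i=1}^{p-1} (p a + i)` modulo `p^4` -/

theorem prod_expand (s : Finset ℕ) (c : ℕ → ℤ) :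
    ∃ A B : ℤ, ∀ t : ℤ, ∃ q : ℤ, ∏ i ∈ s, (c i + t) = A + B * t + t ^ 2 * q := by
  classical
  induction s using Finset.induction_on with
  | empty => exact ⟨1, 0, fun t => ⟨0, by simp⟩⟩
  | insert a s ha ih =>
    obtain ⟨A, B, h⟩ := ih
    refine ⟨c a * A, A + c a * B, fun t => ?_⟩
    obtain ⟨q, hq⟩ := h t
    refine ⟨c a * q + B + t * q, ?_⟩
    rw [prod_insert ha, hq]
    ring

/-- `f p a = ∏_{i=1}^{p-1} (p a + i)` -/
def f (p a : ℕ) : ℤ := ∏ i ∈ range (p - 1), ((p : ℤ) * a + (i + 1))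

theorem f_split {h : ℕ} (a : ℕ) : f (2 * h + 1) a =
    ∏ i ∈ range h, (((i : ℤ) + 1) * (2 * h - i) + (2 * h + 1) ^ 2 * (a * (a + 1))) := by
  unfold f
  rw [show 2 * h + 1 - 1 = h + h by omega, prod_range_add]
  have h1 : ∏ x ∈ range h, (((2 * h + 1 : ℕ) : ℤ) * a + (((h + x : ℕ) : ℤ) + 1)) =
      ∏ x ∈ range h, (((2 * h + 1 : ℕ) : ℤ) * a + (((h + (h - 1 - x) : ℕ) : ℤ) + 1)) :=
    (prod_range_reflect (fun x => (((2 * h + 1 : ℕ) : ℤ) * a + (((h + x : ℕ) : ℤ) + 1))) h).symm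
  rw [h1, ← prod_mul_distrib]
  apply prod_congr rfl
  intro i hi
  rw [mem_range] at hi
  rw [show h + (h - 1 - i) = 2 * h - 1 - i by omega]
  have e : ((2 * h - 1 - i : ℕ) : ℤ) = 2 * h - 1 - i := by
    rw [Nat.cast_sub (by omega), Nat.cast_sub (by omega)]
    push_cast
    ring
  rw [e]
  push_cast
  ring

theorem f_all {h : ℕ} (hp : (2 * h + 1).Prime) (h1 : ((2 * h + 1 : ℕ) : ℤ) ^ 4 ∣
    f (2 * h + 1) 1 - f (2 * h + 1) 0) (a : ℕ) :
    ((2 * h + 1 : ℕ) : ℤ) ^ 4 ∣ f (2 * h + 1) a - f (2 * h + 1) 0 := by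
  set p : ℕ := 2 * h + 1 with hpdef
  obtain ⟨A, B, hAB⟩ := prod_expand (range h) (fun i => ((i : ℤ) + 1) * (2 * h - i))
  have key : ∀ a : ℕ, ∃ q : ℤ, f p a = A + B * ((p : ℤ) ^ 2 * (a * (a + 1))) + (p : ℤ) ^ 4 * q := by
    intro a
    obtain ⟨q, hq⟩ := hAB ((p : ℤ) ^ 2 * (a * (a + 1)))
    refine ⟨(a * (a + 1)) ^ 2 * q, ?_⟩
    rw [hpdef, f_split]
    have e : ((2 * h + 1 : ℕ) : ℤ) = 2 * h + 1 := by push_cast; ring
    rw [hpdef, e] at hq
    rw [hq, e]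
    ring
  obtain ⟨q0, h0⟩ := key 0
  obtain ⟨q1, hq1⟩ := key 1
  obtain ⟨qa, hqa⟩ := key a
  have hp0 : (p : ℤ) ≠ 0 := by exact_mod_cast hp.ne_zero
  have hB : (p : ℤ) ^ 2 ∣ B := by
    have h2 : (p : ℤ) ^ 2 * (p : ℤ) ^ 2 ∣ (p : ℤ) ^ 2 * (2 * B) := by
      have h3 : f p 1 - f p 0 = (p : ℤ) ^ 2 * (2 * B) + (p : ℤ) ^ 4 * (q1 - q0) := by
        rw [h0, hq1]; push_cast; ring
      rw [h3] at h1
      have h4 := (dvd_add_left (Dvd.intro _ rfl)).mp h1
      rwa [← pow_add]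
    have h3 := (mul_dvd_mul_iff_left (pow_ne_zero 2 hp0)).mp h2
    have hcop : IsCoprime ((p : ℤ) ^ 2) 2 := by
      apply IsCoprime.pow_left
      exact ⟨1, -(h : ℤ), by rw [hpdef]; push_cast; ring⟩
    exact hcop.dvd_of_dvd_mul_left h3
  obtain ⟨B', rfl⟩ := hB
  refine ⟨B' * (a * (a + 1)) + (qa - q0), ?_⟩
  rw [hqa, h0]
  push_cast
  ring

theorem f_eq (p a : ℕ) : f p a = ((Nat.ascFactorial (p * a + 1) (p - 1) : ℕ) : ℤ) := by
  unfold f
  rw [Nat.ascFactorial_eq_prod_range]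
  push_cast
  apply prod_congr rfl
  intro i _
  ring

theorem choose_congr {h : ℕ} (hp : (2 * h + 1).Prime) (h1 : ((2 * h + 1 : ℕ) : ℤ) ^ 4 ∣
    f (2 * h + 1) 1 - f (2 * h + 1) 0) (a : ℕ) :
    ((2 * h + 1 : ℕ) : ℤ) ^ 4 ∣
      ((Nat.choose ((2 * h + 1) * a + 2 * h) (2 * h) : ℕ) : ℤ) - 1 := by
  have h2 := f_all hp h1 a
  rw [f_eq, f_eq, Nat.ascFactorial_eq_factorial_mul_choose,
    Nat.ascFactorial_eq_factorial_mul_choose, show 2 * h + 1 - 1 = 2 * h by omega, mul_zero,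
    zero_add, Nat.choose_self, mul_one] at h2
  push_cast at h2
  have h3 : (((2 * h).factorial : ℕ) : ℤ) *
      ((Nat.choose ((2 * h + 1) * a + 2 * h) (2 * h) : ℕ) : ℤ) - (((2 * h).factorial : ℕ) : ℤ) =
      (((2 * h).factorial : ℕ) : ℤ) *
      (((Nat.choose ((2 * h + 1) * a + 2 * h) (2 * h) : ℕ) : ℤ) - 1) := by ring
  rw [h3] at h2
  have hcop : IsCoprime (((2 * h + 1 : ℕ) : ℤ) ^ 4) (((2 * h).factorial : ℕ) : ℤ) := by
    apply IsCoprime.pow_left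
    rw [Nat.isCoprime_iff_coprime]
    exact (Nat.Prime.coprime_iff_not_dvd hp).mpr (fun hd => by
      have := (Nat.Prime.dvd_factorial hp).mp hd
      omega)
  push_cast at hcop ⊢
  exact hcop.dvd_of_dvd_mul_left h2

/-! ### The two coefficients -/

open Pool.Agent.R443.PS in
theorem d_one {h : ℕ} (hh : 0 < h) : d (2 * h + 1) 1 1 = 2 * h + 1 := by
  have e : d (2 * h + 1) 1 1 = coeff 1 (iv ((2 * h + 1) ^ 1) ^ (2 * h) * iv 1 ^ (2 * h + 1)) := by
    unfold d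
    rw [prod_range_succ, prod_range_succ, prod_range_zero, one_mul]
    congr 1
    rw [show 2 * h + 1 - 1 = 2 * h by omega, mul_one, pow_zero]
    unfold iv
    rw [pow_one X]
    ring
  rw [e, coeff_iv_pow_mul_of_lt _ _ (by rw [pow_one]; omega), coeff_iv_pow_succ one_ne_zero]
  simp

open Pool.Agent.R443.PS in
theorem d_sq {h : ℕ} (hh : 0 < h) : d (2 * h + 1) 1 ((2 * h + 1) ^ 2 * 1) =
    (∑ b ∈ range ((2 * h + 1) + 1), ((Nat.choose (b + (2 * h - 1)) (2 * h - 1) : ℕ) : ℤ) *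
      ((Nat.choose ((2 * h + 1) * (2 * h + 1 - b) + 2 * h) (2 * h) : ℕ) : ℤ)) + 2 * h := by
  set p := 2 * h + 1 with hp
  have hp0 : p ≠ 0 := by omega
  have key : ∀ (N : ℕ) (g : ℤ⟦X⟧), coeff (p ^ 2) (g * ∏ i ∈ range (N + 3), iv (p ^ i) ^ (2 * h)) =
      coeff (p ^ 2) (g * ∏ i ∈ range 3, iv (p ^ i) ^ (2 * h)) := by
    intro N g
    induction N with
    | zero => rfl
    | succ N ih =>
      rw [show N + 1 + 3 = (N + 3) + 1 by ring, prod_range_succ, mul_comm _ (iv (p ^ (N + 3)) ^ _),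
        mul_left_comm, coeff_iv_pow_mul_of_lt _ _ ?_, ih]
      exact Nat.pow_lt_pow_right (by omega) (by omega)
  have h1 : d p 1 (p ^ 2 * 1) =
      coeff (p ^ 2) (iv 1 * ∏ i ∈ range ((p ^ 2 - 2) + 3), iv (p ^ i) ^ (2 * h)) := by
    have e1 : p ^ 2 - 2 + 3 = p ^ 2 * 1 + 1 := by
      have : 2 ≤ p ^ 2 := by nlinarith [Nat.succ_le_of_lt hh]
      omega
    unfold d iv
    rw [e1, show (p - 1) * 1 = 2 * h by omega, pow_one X, pow_one, mul_one]
  have h2 : iv 1 * ∏ i ∈ range 3, iv (p ^ i) ^ (2 * h) =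
      iv (p ^ 2) ^ (2 * h - 1 + 1) * (iv p ^ (2 * h - 1 + 1) * iv 1 ^ (2 * h + 1)) := by
    rw [prod_range_succ, prod_range_succ, prod_range_succ, prod_range_zero, pow_zero, pow_one,
      show 2 * h - 1 + 1 = 2 * h by omega]
    ring
  rw [h1, key, h2, coeff_iv_pow_mul (by positivity), Nat.div_self (by positivity),
    sum_range_succ, sum_range_one, mul_zero, Nat.sub_zero, mul_one, Nat.sub_self,
    coeff_iv_pow_mul hp0]
  congr 1
  · rw [add_zero, Nat.choose_self, Nat.cast_one, one_mul, show p ^ 2 / p = p by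
      rw [pow_two, Nat.mul_div_cancel _ (Nat.pos_of_ne_zero hp0)]]
    apply sum_congr rfl
    intro b hb
    rw [mem_range] at hb
    rw [coeff_iv_pow_succ one_ne_zero, if_pos (one_dvd _), Nat.div_one, add_comm (2 * h - 1) b,
      show p ^ 2 - p * b = p * (p - b) by rw [pow_two, ← Nat.mul_sub], add_comm (2 * h)]
  · have c0 : ∀ a : ℕ, a ≠ 0 → coeff 0 (iv a) = 1 := by
      intro a ha
      have := coeff_iv_pow_succ ha 0 0
      simpa using this
    rw [coeff_iv_pow_mul hp0]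
    simp only [Nat.zero_div, zero_add, range_one, sum_singleton, add_zero, Nat.choose_self,
      Nat.cast_one, one_mul, mul_zero, Nat.sub_self]
    rw [coeff_zero_eq_constantCoeff_apply, map_pow, ← coeff_zero_eq_constantCoeff_apply,
      c0 1 one_ne_zero, one_pow, mul_one, Nat.choose_succ_self_right]
    push_cast
    omega

theorem main {h : ℕ} (hh : 0 < h) (hp : (2 * h + 1).Prime) (h1 : ((2 * h + 1 : ℕ) : ℤ) ^ 4 ∣
    f (2 * h + 1) 1 - f (2 * h + 1) 0) :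
    ((2 * h + 1 : ℕ) : ℤ) ^ 4 ∣ d (2 * h + 1) 1 ((2 * h + 1) ^ 2 * 1) - d (2 * h + 1) 1 1 := by
  rw [d_sq hh, d_one hh]
  have e1 : ∑ b ∈ range ((2 * h + 1) + 1), ((Nat.choose (b + (2 * h - 1)) (2 * h - 1) : ℕ) : ℤ) =
      ((Nat.choose ((2 * h + 1) * 1 + 2 * h) (2 * h) : ℕ) : ℤ) := by
    rw [← Nat.cast_sum, Nat.sum_range_add_choose]
    congr 2
    · omega
    · omega
  have h2 : ((2 * h + 1 : ℕ) : ℤ) ^ 4 ∣
      ∑ b ∈ range ((2 * h + 1) + 1), ((Nat.choose (b + (2 * h - 1)) (2 * h - 1) : ℕ) : ℤ) *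
      (((Nat.choose ((2 * h + 1) * (2 * h + 1 - b) + 2 * h) (2 * h) : ℕ) : ℤ) - 1) :=
    dvd_sum (fun b _ => Dvd.dvd.mul_left (choose_congr hp h1 _) _)
  have h3 := choose_congr hp h1 1
  have h4 := dvd_add h2 h3
  have e2 : (∑ b ∈ range ((2 * h + 1) + 1), ((Nat.choose (b + (2 * h - 1)) (2 * h - 1) : ℕ) : ℤ) *
      (((Nat.choose ((2 * h + 1) * (2 * h + 1 - b) + 2 * h) (2 * h) : ℕ) : ℤ) - 1)) +
      (((Nat.choose ((2 * h + 1) * 1 + 2 * h) (2 * h) : ℕ) : ℤ) - 1) =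
      (∑ b ∈ range ((2 * h + 1) + 1), ((Nat.choose (b + (2 * h - 1)) (2 * h - 1) : ℕ) : ℤ) *
      ((Nat.choose ((2 * h + 1) * (2 * h + 1 - b) + 2 * h) (2 * h) : ℕ) : ℤ)) + 2 * h -
      (2 * h + 1) := by
    simp only [mul_sub, sum_sub_distrib]
    simp only [mul_one (M := ℤ)]
    rw [e1]
    ring
  rw [← e2]
  exact h4

/-! ### The computation for `p = 16843` -/

/-- `P lo k` is the product of the `2^k` integers starting at `lo`, modulo `16843^4`. -/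
def P : ℕ → ℕ → ℕ
  | lo, 0 => lo % 16843 ^ 4
  | lo, k + 1 => (P lo k * P (lo + 2 ^ k) k) % 16843 ^ 4

theorem P_eq (k : ℕ) : ∀ lo : ℕ, P lo k = (Nat.ascFactorial lo (2 ^ k)) % 16843 ^ 4 := by
  induction k with
  | zero =>
    intro lo
    simp [P, Nat.ascFactorial]
  | succ k ih =>
    intro lo
    rw [P, ih, ih, ← Nat.mul_mod, Nat.ascFactorial_mul_ascFactorial, ← two_mul, ← pow_succ']

theorem P_check :
    (P (16843 + 1) 14 * (P (16843 + 16385) 8 * (P (16843 + 16641) 7 * (P (16843 + 16769) 6 *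
      (P (16843 + 16833) 3 * P (16843 + 16841) 1))))) % 16843 ^ 4 =
    (P 1 14 * (P 16385 8 * (P 16641 7 * (P 16769 6 *
      (P 16833 3 * P 16841 1))))) % 16843 ^ 4 := by
  decide +kernel

theorem asc_split (lo : ℕ) : (Nat.ascFactorial (lo + 1) 16842) % 16843 ^ 4 =
    (P (lo + 1) 14 * (P (lo + 16385) 8 * (P (lo + 16641) 7 * (P (lo + 16769) 6 *
      (P (lo + 16833) 3 * P (lo + 16841) 1))))) % 16843 ^ 4 := by
  simp only [P_eq]
  have e : Nat.ascFactorial (lo + 1) 16842 = Nat.ascFactorial (lo + 1) (2 ^ 14) *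
      (Nat.ascFactorial (lo + 16385) (2 ^ 8) * (Nat.ascFactorial (lo + 16641) (2 ^ 7) *
      (Nat.ascFactorial (lo + 16769) (2 ^ 6) * (Nat.ascFactorial (lo + 16833) (2 ^ 3) *
      Nat.ascFactorial (lo + 16841) (2 ^ 1))))) := by
    rw [show lo + 16841 = (lo + 16833) + 2 ^ 3 by ring, Nat.ascFactorial_mul_ascFactorial,
      show lo + 16833 = (lo + 16769) + 2 ^ 6 by ring, Nat.ascFactorial_mul_ascFactorial,
      show lo + 16769 = (lo + 16641) + 2 ^ 7 by ring, Nat.ascFactorial_mul_ascFactorial,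
      show lo + 16641 = (lo + 16385) + 2 ^ 8 by ring, Nat.ascFactorial_mul_ascFactorial,
      show lo + 16385 = (lo + 1) + 2 ^ 14 by ring, Nat.ascFactorial_mul_ascFactorial,
      show 2 ^ 14 + (2 ^ 8 + (2 ^ 7 + (2 ^ 6 + (2 ^ 3 + 2 ^ 1)))) = 16842 by norm_num]
  rw [e]
  simp only [Nat.mul_mod, Nat.mod_mod]

theorem check0 (p h A B : ℕ) (hp : p = 2 * h + 1) (hA : A = Nat.ascFactorial (p + 1) (2 * h))
    (hB : B = Nat.ascFactorial 1 (2 * h)) (hAB : A % p ^ 4 = B % p ^ 4) :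
    ((2 * h + 1 : ℕ) : ℤ) ^ 4 ∣ f (2 * h + 1) 1 - f (2 * h + 1) 0 := by
  rw [f_eq, f_eq, mul_zero, zero_add, mul_one, ← hp, show p - 1 = 2 * h by omega, ← hA, ← hB]
  have h3 : B ≡ A [MOD p ^ 4] := hAB.symm
  have h4 := (Nat.modEq_iff_dvd).mp h3
  push_cast at h4
  exact h4

theorem check : ((2 * 8421 + 1 : ℕ) : ℤ) ^ 4 ∣ f (2 * 8421 + 1) 1 - f (2 * 8421 + 1) 0 := by
  have h1 := asc_split 16843
  have h2 := asc_split 0
  rw [P_check] at h1
  simp only [zero_add] at h2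
  rw [← h2] at h1
  have e : 2 * 8421 = 16842 := by norm_num
  have hA : Nat.ascFactorial (16843 + 1) 16842 = Nat.ascFactorial (16843 + 1) (2 * 8421) := by
    rw [e]
  have hB : Nat.ascFactorial 1 16842 = Nat.ascFactorial 1 (2 * 8421) := by
    rw [e]
  exact check0 16843 8421 _ _ (by norm_num) hA hB h1

/-- Q1 is false for `p = 16843`, `m = 1`, `n = 1`: the valuation of `d_1(p^2) - d_1(1)` is at
least `4`, while the formula of Q1 gives `3`. -/
theorem result :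
    Nat.Prime 16843 ∧ (16843 : ℤ) ^ 4 ∣ d 16843 1 (16843 ^ 2 * 1) - d 16843 1 1 := by
  have hp : Nat.Prime (2 * 8421 + 1) := by norm_num
  refine ⟨by norm_num, ?_⟩
  have h := main (h := 8421) (by norm_num) hp check
  norm_num at h ⊢
  exact h

end Pool.Agent.Results.MP_26251e_nt.WolstenholmePrime
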